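import Pool.Agent.W732.Ud.Stm

set_option autoImplicit false

open Metric Set Filter Topology Complex

namespace Pool.Agent.W349.Ud

open Pool.Agent.W732.Ud

/-- the peak function -/
noncomputable def P0 (x : ℂ) : ℂ := (1 + x) / 2

theorem P0_sq (x : ℂ) (hx : ‖x‖ ≤ 1) : ‖P0 x‖ ^ 2 ≤ 1 - ‖x - 1‖ ^ 2 / 4 := by
  have h1 := parallelogram_law_with_norm ℝ (1 : ℂ) x
  have h2 : ‖P0 x‖ = ‖1 + x‖ / 2 := by
    unfold P0
    rw [norm_div]
    simp
  have h3 : ‖x - 1‖ = ‖1 - x‖ := norm_sub_rev _ _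
  rw [h2, h3]
  rw [norm_one] at h1
  have h4 : ‖x‖ * ‖x‖ ≤ 1 := by
    have := norm_nonneg x
    nlinarith
  nlinarith

theorem P0_le (x : ℂ) (hx : ‖x‖ ≤ 1) : ‖P0 x‖ ≤ 1 := by
  have h1 := P0_sq x hx
  have h2 := norm_nonneg (P0 x)
  by_contra h
  push Not at h
  nlinarith [sq_nonneg ‖x - 1‖]

theorem P0_sub (x : ℂ) : ‖P0 x - 1‖ = ‖x - 1‖ / 2 := by
  have : P0 x - 1 = (x - 1) / 2 := by
    unfold P0
    ring
  rw [this, norm_div]
  simp

theorem pow_sub_one_le (z : ℂ) (hz : ‖z‖ ≤ 1) (i : ℕ) : ‖z ^ i - 1‖ ≤ i * ‖z - 1‖ := by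
  induction i with
  | zero => simp
  | succ i ih =>
    have h1 : z ^ (i + 1) - 1 = z ^ i * (z - 1) + (z ^ i - 1) := by ring
    rw [h1]
    refine (norm_add_le _ _).trans ?_
    rw [norm_mul, norm_pow]
    have h2 : ‖z‖ ^ i ≤ 1 := pow_le_one₀ (norm_nonneg _) hz
    have h3 : ‖z‖ ^ i * ‖z - 1‖ ≤ 1 * ‖z - 1‖ := mul_le_mul_of_nonneg_right h2 (norm_nonneg _)
    push_cast
    linarith

theorem ph_facts (a x : ℂ) (s : ℝ) (ha : ‖a‖ < 1) (hx : ‖x‖ < 1) (hs0 : 0 < s) (hs : s < 1)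
    (h : ph a x < s) :
    ‖x - 1‖ ≤ (1 - ‖a‖ ^ 2) / (1 - s) + ‖a - 1‖ ∧ ‖a - 1‖ * (1 - s) / 2 ≤ ‖x - 1‖ := by
  have hax : ‖starRingEnd ℂ a * x‖ < 1 := by
    rw [norm_mul, RCLike.norm_conj]
    have := norm_nonneg a
    have := norm_nonneg x
    nlinarith
  have hne : 1 - starRingEnd ℂ a * x ≠ 0 := by
    intro h0
    rw [sub_eq_zero] at h0
    rw [← h0, norm_one] at hax
    exact lt_irrefl _ hax
  have hpos : 0 < ‖1 - starRingEnd ℂ a * x‖ := norm_pos_iff.2 hne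
  have h1 : ‖x - a‖ < s * ‖1 - starRingEnd ℂ a * x‖ := by
    unfold ph at h
    rw [norm_div, div_lt_iff₀ hpos] at h
    exact h
  have h2 : ‖1 - starRingEnd ℂ a * x‖ ≤ (1 - ‖a‖ ^ 2) + ‖x - a‖ := by
    have e : 1 - starRingEnd ℂ a * x = ((1 - ‖a‖ ^ 2 : ℝ) : ℂ) + starRingEnd ℂ a * (a - x) := by
      have e1 : starRingEnd ℂ a * a = ((‖a‖ ^ 2 : ℝ) : ℂ) := by
        rw [mul_comm, Complex.mul_conj, Complex.normSq_eq_norm_sq]
      rw [mul_sub, e1]
      push_cast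
      ring
    rw [e]
    refine (norm_add_le _ _).trans ?_
    rw [Complex.norm_real, norm_mul, RCLike.norm_conj, norm_sub_rev a x, Real.norm_eq_abs,
      abs_of_nonneg (by have := norm_nonneg a; nlinarith)]
    have := norm_nonneg (x - a)
    nlinarith
  have h3 : ‖1 - starRingEnd ℂ a * x‖ ≤ ‖a - 1‖ + ‖x - 1‖ := by
    have e : 1 - starRingEnd ℂ a * x = starRingEnd ℂ (1 - a) + starRingEnd ℂ a * (1 - x) := by
      rw [map_sub, map_one]
      ring
    rw [e]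
    refine (norm_add_le _ _).trans ?_
    rw [RCLike.norm_conj, norm_mul, RCLike.norm_conj, norm_sub_rev 1 a, norm_sub_rev 1 x]
    have := norm_nonneg (x - 1)
    nlinarith
  constructor
  · have h4 : ‖x - a‖ ≤ (1 - ‖a‖ ^ 2) / (1 - s) := by
      rw [le_div_iff₀ (by linarith)]
      have hA : 0 ≤ 1 - ‖a‖ ^ 2 := by
        have := norm_nonneg a
        nlinarith
      have h5 := mul_le_mul_of_nonneg_left h2 hs0.le
      have h6 := mul_nonneg (by linarith : 0 ≤ 1 - s) hA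
      nlinarith
    calc ‖x - 1‖ = ‖(x - a) + (a - 1)‖ := by congr 1; ring
      _ ≤ _ := (norm_add_le _ _).trans (by linarith)
  · have h4 : ‖a - 1‖ ≤ ‖x - a‖ + ‖x - 1‖ := by
      calc ‖a - 1‖ = ‖(x - 1) - (x - a)‖ := by congr 1; ring
        _ ≤ _ := (norm_sub_le _ _).trans (by linarith)
    have := norm_nonneg (x - 1)
    have := norm_nonneg (a - 1)
    nlinarith

theorem step (μ : ℕ → ℂ) (hμ : ∀ n, ‖μ n‖ < 1) (hμ1 : Tendsto μ atTop (𝓝 1)) (s : ℝ) (hs0 : 0 < s)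
    (hs1 : s < 1) (L j N : ℕ) (τ c e e' : ℝ) (hτ : 0 < τ) (hc : 0 < c) (hc1 : c ≤ 1) (he : 0 < e)
    (he' : 0 < e') :
    ∃ (t : ℝ) (n : ℕ) (t' : ℝ) (j' : ℕ), 0 < t ∧ t ≤ c ∧ t ≤ τ ∧
      (∀ x : ℂ, ‖x‖ < 1 → ‖x - 1‖ < t → ∀ i ≤ j, ‖P0 x ^ i - 1‖ ≤ e) ∧ N < n ∧ L ≤ n ∧
      (∀ x : ℂ, ‖x‖ < 1 → ph (μ n) x < s → ‖x - 1‖ < t) ∧ 0 < t' ∧ t' ≤ t ∧
      (∀ x : ℂ, ‖x‖ < 1 → ph (μ n) x < s → t' ≤ ‖x - 1‖) ∧ j < j' ∧
      ∀ x : ℂ, ‖x‖ < 1 → t' ≤ ‖x - 1‖ → ‖P0 x ^ j'‖ ≤ e' := by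
  set t : ℝ := min c (min τ (e / (j + 1))) with ht
  have ht0 : 0 < t := lt_min hc (lt_min hτ (by positivity))
  have htc : t ≤ c := min_le_left _ _
  have htτ : t ≤ τ := (min_le_right _ _).trans (min_le_left _ _)
  have hte : t ≤ e / (j + 1) := (min_le_right _ _).trans (min_le_right _ _)
  have hlim : Tendsto (fun n => (1 - ‖μ n‖ ^ 2) / (1 - s) + ‖μ n - 1‖) atTop (𝓝 0) := by
    have h1 : Tendsto (fun n => ‖μ n‖) atTop (𝓝 1) := by
      have := hμ1.norm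
      rwa [norm_one] at this
    have h2 : Tendsto (fun n => ‖μ n - 1‖) atTop (𝓝 0) := by
      have := (hμ1.sub_const 1).norm
      rwa [sub_self, norm_zero] at this
    have h3 := (((h1.pow 2).const_sub 1).div_const (1 - s)).add h2
    have e1 : (1 - 1 ^ 2 : ℝ) / (1 - s) + 0 = 0 := by simp
    rw [e1] at h3
    exact h3
  have hev := (hlim.eventually (gt_mem_nhds ht0)).and (eventually_ge_atTop (max (N + 1) L))
  obtain ⟨n, hn1, hn2⟩ := hev.exists
  have hμne : 0 < ‖μ n - 1‖ := by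
    rw [norm_pos_iff, sub_ne_zero]
    intro h0
    have := hμ n
    rw [h0, norm_one] at this
    exact lt_irrefl _ this
  set t' : ℝ := min t (‖μ n - 1‖ * (1 - s) / 2) with ht'
  have ht'0 : 0 < t' := lt_min ht0 (by
    have : 0 < 1 - s := by linarith
    positivity)
  have ht't : t' ≤ t := min_le_left _ _
  have hq1 : 1 - t' ^ 2 / 4 < 1 := by
    have : 0 < t' ^ 2 := by positivity
    linarith
  have hq0 : 0 ≤ 1 - t' ^ 2 / 4 := by
    have : t' ≤ 1 := ht't.trans (htc.trans hc1)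
    nlinarith
  obtain ⟨i0, hi0⟩ := exists_pow_lt_of_lt_one he' hq1
  refine ⟨t, n, t', 2 * (i0 + j + 1), ht0, htc, htτ, ?_, ?_, ?_, ?_, ht'0, ht't, ?_, by omega, ?_⟩
  · intro x hx hxt i hi
    have h1 := pow_sub_one_le (P0 x) (P0_le x hx.le) i
    rw [P0_sub] at h1
    refine h1.trans ?_
    have h2 : (i : ℝ) ≤ j := by exact_mod_cast hi
    have h3 : ‖x - 1‖ ≤ e / (j + 1) := hxt.le.trans hte
    have hj0 : (0 : ℝ) ≤ j := Nat.cast_nonneg j
    have hi0' : (0 : ℝ) ≤ i := Nat.cast_nonneg i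
    have h4 : (j : ℝ) * (e / (j + 1)) ≤ e := by
      rw [mul_div_assoc', div_le_iff₀ (by positivity)]
      nlinarith
    have h5 : (i : ℝ) * (‖x - 1‖ / 2) ≤ j * (e / (j + 1)) := by
      apply mul_le_mul h2 _ (by positivity) hj0
      have := norm_nonneg (x - 1)
      linarith
    linarith
  · exact lt_of_lt_of_le (Nat.lt_succ_self N) ((le_max_left _ _).trans hn2)
  · exact (le_max_right _ _).trans hn2
  · intro x hx hph
    exact lt_of_le_of_lt (ph_facts (μ n) x s (hμ n) hx hs0 hs1 hph).1 hn1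
  · intro x hx hph
    exact (min_le_right _ _).trans (ph_facts (μ n) x s (hμ n) hx hs0 hs1 hph).2
  · intro x hx hxt
    rw [norm_pow, pow_mul]
    have h1 : ‖P0 x‖ ^ 2 ≤ 1 - t' ^ 2 / 4 := by
      refine (P0_sq x hx.le).trans ?_
      have : t' ^ 2 ≤ ‖x - 1‖ ^ 2 := pow_le_pow_left₀ ht'0.le hxt 2
      linarith
    calc (‖P0 x‖ ^ 2) ^ (i0 + j + 1) ≤ (1 - t' ^ 2 / 4) ^ (i0 + j + 1) :=
          pow_le_pow_left₀ (by positivity) h1 _
      _ ≤ (1 - t' ^ 2 / 4) ^ i0 := pow_le_pow_of_le_one hq0 hq1.le (by omega)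
      _ ≤ e' := hi0.le

theorem main : S_pk := by
  intro μ hμ hμ1 s hs0 hs1 L κ hκ
  set κ' : ℝ := min κ 1 with hκ'
  have hκ'0 : 0 < κ' := lt_min hκ one_pos
  have hκ'1 : κ' ≤ 1 := min_le_right _ _
  have hκ'κ : κ' ≤ κ := min_le_left _ _
  set e : ℕ → ℝ := fun k => κ' / 16 * (1 / 4) ^ k with he
  have he0 : ∀ k, 0 < e k := fun k => by
    simp only [he]
    positivity
  have hanti : ∀ k l, k ≤ l → e l ≤ e k := by
    intro k l hkl
    simp only [he]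
    apply mul_le_mul_of_nonneg_left _ (by positivity)
    exact pow_le_pow_of_le_one (by norm_num) (by norm_num) hkl
  have hstep : ∀ (k j N : ℕ) (τ : ℝ), ∃ (t : ℝ) (n : ℕ) (t' : ℝ) (j' : ℕ), 0 < τ →
      (0 < t ∧ t ≤ 1 / ((k : ℝ) + 1) ∧ t ≤ τ ∧
      (∀ x : ℂ, ‖x‖ < 1 → ‖x - 1‖ < t → ∀ i ≤ j, ‖P0 x ^ i - 1‖ ≤ e k) ∧ N < n ∧ L k ≤ n ∧
      (∀ x : ℂ, ‖x‖ < 1 → ph (μ n) x < s k → ‖x - 1‖ < t) ∧ 0 < t' ∧ t' ≤ t ∧
      (∀ x : ℂ, ‖x‖ < 1 → ph (μ n) x < s k → t' ≤ ‖x - 1‖) ∧ j < j' ∧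
      ∀ x : ℂ, ‖x‖ < 1 → t' ≤ ‖x - 1‖ → ‖P0 x ^ j'‖ ≤ e (k + 1)) := by
    intro k j N τ
    by_cases hτ : 0 < τ
    · obtain ⟨t, n, t', j', h⟩ := step μ hμ hμ1 (s k) (hs0 k) (hs1 k) (L k) j N τ
        (1 / ((k : ℝ) + 1)) (e k) (e (k + 1)) hτ (by positivity) (by
          rw [div_le_one (by positivity)]
          have : (0 : ℝ) ≤ k := Nat.cast_nonneg k
          linarith) (he0 k) (he0 (k + 1))
      exact ⟨t, n, t', j', fun _ => h⟩
    · exact ⟨0, 0, 0, 0, fun h => absurd h hτ⟩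
  choose T Nn T' J' hall using hstep
  -- the states: (j, N, τ)
  set st : ℕ → ℕ × ℕ × ℝ := fun k => Nat.rec ((0, 0, 1) : ℕ × ℕ × ℝ)
    (fun k q => (J' k q.1 q.2.1 q.2.2, Nn k q.1 q.2.1 q.2.2, T' k q.1 q.2.1 q.2.2)) k with hst
  have hst0 : st 0 = (0, 0, 1) := rfl
  have hsts : ∀ k, st (k + 1) = (J' k (st k).1 (st k).2.1 (st k).2.2,
      Nn k (st k).1 (st k).2.1 (st k).2.2, T' k (st k).1 (st k).2.1 (st k).2.2) := fun k => rfl
  have hτpos : ∀ k, 0 < (st k).2.2 := by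
    intro k
    induction k with
    | zero => rw [hst0]; norm_num
    | succ k ih =>
      rw [hsts]
      exact (hall k (st k).1 (st k).2.1 (st k).2.2 ih).2.2.2.2.2.2.2.1
  set j : ℕ → ℕ := fun k => (st k).1 with hj
  set n : ℕ → ℕ := fun k => (st (k + 1)).2.1 with hn
  set t : ℕ → ℝ := fun k => T k (st k).1 (st k).2.1 (st k).2.2 with ht
  set t' : ℕ → ℝ := fun k => (st (k + 1)).2.2 with ht'
  have H := fun k => hall k (st k).1 (st k).2.1 (st k).2.2 (hτpos k)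
  have Ht0 : ∀ k, 0 < t k := fun k => (H k).1
  have Htk : ∀ k, t k ≤ 1 / ((k : ℝ) + 1) := fun k => (H k).2.1
  have Htt : ∀ k, t (k + 1) ≤ t' k := fun k => (H (k + 1)).2.2.1
  have H1 : ∀ k, ∀ x : ℂ, ‖x‖ < 1 → ‖x - 1‖ < t k → ∀ i ≤ j k, ‖P0 x ^ i - 1‖ ≤ e k :=
    fun k => (H k).2.2.2.1
  have Hn : StrictMono n := by
    apply strictMono_nat_of_lt_succ
    intro k
    exact (H (k + 1)).2.2.2.2.1
  have HL : ∀ k, L k ≤ n k := fun k => (H k).2.2.2.2.2.1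
  have H2 : ∀ k, ∀ x : ℂ, ‖x‖ < 1 → ph (μ (n k)) x < s k → ‖x - 1‖ < t k :=
    fun k => (H k).2.2.2.2.2.2.1
  have Ht'0 : ∀ k, 0 < t' k := fun k => (H k).2.2.2.2.2.2.2.1
  have Ht't : ∀ k, t' k ≤ t k := fun k => (H k).2.2.2.2.2.2.2.2.1
  have H3 : ∀ k, ∀ x : ℂ, ‖x‖ < 1 → ph (μ (n k)) x < s k → t' k ≤ ‖x - 1‖ :=
    fun k => (H k).2.2.2.2.2.2.2.2.2.1
  have Hj : StrictMono j := by
    apply strictMono_nat_of_lt_succ
    intro k
    exact (H k).2.2.2.2.2.2.2.2.2.2.1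
  have H4 : ∀ k, ∀ x : ℂ, ‖x‖ < 1 → t' k ≤ ‖x - 1‖ → ‖P0 x ^ (j (k + 1))‖ ≤ e (k + 1) :=
    fun k => (H k).2.2.2.2.2.2.2.2.2.2.2
  have hj0 : j 0 = 0 := rfl
  have Ht'anti : Antitone t' := by
    apply antitone_nat_of_succ_le
    intro k
    exact (Ht't (k + 1)).trans (Htt k)
  clear_value j n t t' st
  -- consequences
  set Q : ℕ → ℂ → ℂ := fun i x => P0 x ^ (j i) with hQ
  have HQ1 : ∀ k, ∀ x : ℂ, ‖x‖ < 1 → ‖x - 1‖ < t k → ∀ i ≤ k, ‖Q i x - 1‖ ≤ e k :=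
    fun k x hx hxt i hi => H1 k x hx hxt (j i) (Hj.monotone hi)
  have HQ2 : ∀ k, ∀ x : ℂ, ‖x‖ < 1 → t' k ≤ ‖x - 1‖ → ∀ i, k + 1 ≤ i → ‖Q i x‖ ≤ e i := by
    intro k x hx hxt i hi
    obtain ⟨l, rfl⟩ : ∃ l, i = l + 1 := ⟨i - 1, by omega⟩
    exact H4 l x hx ((Ht'anti (by omega : k ≤ l)).trans hxt)
  have HQle : ∀ i, ∀ x : ℂ, ‖x‖ < 1 → ‖Q i x‖ ≤ 1 := by
    intro i x hx
    simp only [hQ]
    rw [norm_pow]
    exact pow_le_one₀ (norm_nonneg _) (P0_le x hx.le)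
  have HQ0 : ∀ x, Q 0 x = 1 := by
    intro x
    simp only [hQ]
    rw [hj0, pow_zero]
  have hgeo : ∀ k l : ℕ, k ≤ l → e l * 2 ≤ κ' / 8 * (1 / 2) ^ k * (1 / 2) ^ l := by
    intro k l hkl
    simp only [he]
    have h1 : ((1 : ℝ) / 4) ^ l = (1 / 2) ^ l * (1 / 2) ^ l := by
      rw [← mul_pow]
      norm_num
    have h2 : ((1 : ℝ) / 2) ^ l ≤ (1 / 2) ^ k := pow_le_pow_of_le_one (by norm_num) (by norm_num) hkl
    have h3 : (0 : ℝ) < (1 / 2) ^ l := by positivity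
    rw [h1]
    have h4 : (1 / 2 : ℝ) ^ l * (1 / 2) ^ l ≤ (1 / 2) ^ k * (1 / 2) ^ l :=
      mul_le_mul_of_nonneg_right h2 h3.le
    nlinarith
  have hhalf : ∀ k : ℕ, ((1 : ℝ) / 2) ^ k ≤ 1 / ((k : ℝ) + 1) := by
    intro k
    rw [one_div_pow]
    apply one_div_le_one_div_of_le (by positivity)
    have h1 : k + 1 ≤ 2 ^ k := Nat.lt_two_pow_self
    exact_mod_cast h1
  have hhalf1 : ∀ k : ℕ, ((1 : ℝ) / 2) ^ k ≤ 1 := fun k => pow_le_one₀ (by norm_num) (by norm_num)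
  set p : ℕ → ℂ → ℂ := fun k x => Q k x - Q (k + 1) x with hp
  have hp1 : ∀ l x, ‖p l x‖ ≤ ‖Q l x - 1‖ + ‖Q (l + 1) x - 1‖ := by
    intro l x
    have e1 : p l x = (Q l x - 1) - (Q (l + 1) x - 1) := by
      simp only [hp]
      ring
    rw [e1]
    exact norm_sub_le _ _
  have hp2 : ∀ l x, ‖p l x‖ ≤ ‖Q l x‖ + ‖Q (l + 1) x‖ := fun l x => norm_sub_le _ _
  have hpt : ∀ x : ℂ, ‖x‖ < 1 → ∃ k, (∀ i ≤ k, ‖Q i x - 1‖ ≤ e k) ∧
      ∀ i, k + 2 ≤ i → ‖Q i x‖ ≤ e i := by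
    intro x hx
    have hx1 : 0 < ‖x - 1‖ := by
      rw [norm_pos_iff, sub_ne_zero]
      intro h0
      rw [h0, norm_one] at hx
      exact lt_irrefl _ hx
    have hex : ∃ m, t m ≤ ‖x - 1‖ := by
      obtain ⟨m, hm⟩ := exists_nat_one_div_lt hx1
      exact ⟨m, (Htk m).trans hm.le⟩
    classical
    set m := Nat.find hex with hm
    have hm1 : t m ≤ ‖x - 1‖ := Nat.find_spec hex
    rcases Nat.eq_zero_or_pos m with h0 | h0
    · refine ⟨0, ?_, ?_⟩
      · intro i hi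
        have : i = 0 := by omega
        rw [this, HQ0, sub_self, norm_zero]
        exact (he0 0).le
      · intro i hi
        rw [h0] at hm1
        exact HQ2 0 x hx ((Ht't 0).trans hm1) i (by omega)
    · refine ⟨m - 1, ?_, ?_⟩
      · have h1 : ¬ t (m - 1) ≤ ‖x - 1‖ := Nat.find_min hex (by omega)
        push Not at h1
        exact HQ1 (m - 1) x hx h1
      · intro i hi
        exact HQ2 m x hx ((Ht't m).trans hm1) i (by omega)
  have hmaj : ∀ x : ℂ, ‖x‖ < 1 → ∃ k, ∀ l, ‖p l x‖ ≤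
      1 / 8 * (1 / 2) ^ l + (if l = k then 2 else 0) + (if l = k + 1 then 5 / 4 else 0) := by
    intro x hx
    obtain ⟨k, h1, h2⟩ := hpt x hx
    refine ⟨k, ?_⟩
    intro l
    have hg0 : (0 : ℝ) < (1 / 2) ^ l := by positivity
    rcases lt_trichotomy l k with hl | hl | hl
    · rw [if_neg (by omega), if_neg (by omega)]
      have h3 := hp1 l x
      have h4 := h1 l (by omega)
      have h5 := h1 (l + 1) (by omega)
      have h6 := hgeo l k hl.le
      have h7 : κ' / 8 * (1 / 2) ^ l * (1 / 2) ^ k ≤ 1 / 8 * (1 / 2) ^ l := by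
        have h8 := hhalf1 k
        have h9 : (0 : ℝ) < (1 / 2) ^ k := by positivity
        have h10 : κ' * (1 / 2) ^ k ≤ 1 := by nlinarith
        nlinarith
      linarith
    · rw [if_pos hl, if_neg (by omega)]
      have h3 := hp2 l x
      have h4 := HQle l x hx
      have h5 := HQle (l + 1) x hx
      linarith
    · by_cases hl2 : l = k + 1
      · rw [if_neg (by omega), if_pos hl2]
        have h3 := hp2 l x
        have h4 := HQle l x hx
        have h5 := h2 (l + 1) (by omega)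
        have h6 := hgeo 0 (l + 1) (Nat.zero_le _)
        have h7 := hhalf1 (l + 1)
        have h8 : κ' / 8 * (1 / 2) ^ 0 * (1 / 2) ^ (l + 1) ≤ 1 / 8 := by
          rw [pow_zero]
          nlinarith
        linarith
      · rw [if_neg (by omega), if_neg hl2]
        have h3 := hp2 l x
        have h4 := h2 l (by omega)
        have h5 := h2 (l + 1) (by omega)
        have h6 := hgeo 0 l (Nat.zero_le _)
        have h7 := hanti l (l + 1) (Nat.le_succ l)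
        have h8 : κ' / 8 * (1 / 2) ^ 0 * (1 / 2) ^ l ≤ 1 / 8 * (1 / 2) ^ l := by
          rw [pow_zero]
          nlinarith
        linarith
  have hmsum : ∀ k : ℕ, HasSum (fun l : ℕ => 1 / 8 * (1 / 2 : ℝ) ^ l +
      (if l = k then 2 else 0) + (if l = k + 1 then 5 / 4 else 0)) (1 / 8 * 2 + 2 + 5 / 4) :=
    fun k => ((hasSum_geometric_two.mul_left (1 / 8)).add (hasSum_ite_eq k 2)).add
      (hasSum_ite_eq (k + 1) (5 / 4))
  have hsumm : ∀ x : ℂ, ‖x‖ < 1 → Summable (fun k => ‖p k x‖) := by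
    intro x hx
    obtain ⟨k, hk⟩ := hmaj x hx
    exact Summable.of_nonneg_of_le (fun l => norm_nonneg _) hk (hmsum k).summable
  refine ⟨n, p, Hn, HL, ?_, ?_, ?_, ?_, ?_⟩
  · intro k
    simp only [hp, hQ]
    unfold P0
    fun_prop
  · intro x hx
    exact hsumm x (mem_ball_zero_iff.1 hx)
  · intro x hx
    rw [mem_ball_zero_iff] at hx
    obtain ⟨k, hk⟩ := hmaj x hx
    refine ((hsumm x hx).tsum_le_tsum hk (hmsum k).summable).trans ?_
    rw [(hmsum k).tsum_eq]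
    norm_num
  · intro r hr
    obtain ⟨i0, hi0⟩ := exists_nat_one_div_lt (sub_pos.2 hr)
    refine ⟨fun l => 1 / 8 * (1 / 2) ^ l + (if l ≤ i0 then 2 else 0), ?_, ?_⟩
    · apply Summable.add (hasSum_geometric_two.mul_left (1 / 8)).summable
      apply summable_of_ne_finset_zero (s := Finset.range (i0 + 1))
      intro l hl
      rw [Finset.mem_range] at hl
      rw [if_neg (by omega)]
    · intro l x hxr
      have hx : ‖x‖ < 1 := lt_of_le_of_lt hxr hr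
      have hx1 : 1 - r ≤ ‖x - 1‖ := by
        have h1 := norm_sub_norm_le (1 : ℂ) x
        rw [norm_one, norm_sub_rev] at h1
        linarith
      have hg0 : (0 : ℝ) < (1 / 2) ^ l := by positivity
      by_cases hl : l ≤ i0
      · simp only [if_pos hl]
        have h3 := hp2 l x
        have h4 := HQle l x hx
        have h5 := HQle (l + 1) x hx
        linarith
      · simp only [if_neg hl]
        have h3 := hp2 l x
        have hti : t' i0 ≤ ‖x - 1‖ := (Ht't i0).trans ((Htk i0).trans (hi0.le.trans hx1))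
        have h4 := HQ2 i0 x hx hti l (by omega)
        have h5 := HQ2 i0 x hx hti (l + 1) (by omega)
        have h6 := hgeo 0 l (Nat.zero_le _)
        have h7 := hanti l (l + 1) (Nat.le_succ l)
        have h8 : κ' / 8 * (1 / 2) ^ 0 * (1 / 2) ^ l ≤ 1 / 8 * (1 / 2) ^ l := by
          rw [pow_zero]
          nlinarith
        linarith
  · intro k x hx hph
    rw [mem_ball_zero_iff] at hx
    have ha := HQ1 k x hx (H2 k x hx hph)
    have hb := HQ2 k x hx (H3 k x hx hph)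
    have hfin : κ' / 8 * (1 / 2) ^ k * 2 ≤ κ / (k + 1) := by
      have h1 := hhalf k
      have h2 : κ / ((k : ℝ) + 1) = κ * (1 / ((k : ℝ) + 1)) := by ring
      rw [h2]
      have h3 : κ' * (1 / 2) ^ k ≤ κ * (1 / ((k : ℝ) + 1)) :=
        mul_le_mul hκ'κ h1 (by positivity) hκ.le
      have h4 : (0 : ℝ) < κ' * (1 / 2) ^ k := by positivity
      nlinarith
    have hbd : ∀ l, (if l = k then 0 else ‖p l x‖) ≤ κ' / 8 * (1 / 2) ^ k * (1 / 2) ^ l := by
      intro l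
      rcases lt_trichotomy l k with hl | hl | hl
      · rw [if_neg (by omega)]
        have h3 := hp1 l x
        have h4 := ha l (by omega)
        have h5 := ha (l + 1) (by omega)
        have h6 := hgeo l k hl.le
        have h7 : κ' / 8 * (1 / 2) ^ l * (1 / 2) ^ k = κ' / 8 * (1 / 2) ^ k * (1 / 2) ^ l := by ring
        linarith
      · rw [if_pos hl]
        positivity
      · rw [if_neg (by omega)]
        have h3 := hp2 l x
        have h4 := hb l (by omega)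
        have h5 := hb (l + 1) (by omega)
        have h6 := hgeo k l hl.le
        have h7 := hanti l (l + 1) (Nat.le_succ l)
        linarith
    constructor
    · have e1 : p k x - 1 = (Q k x - 1) - Q (k + 1) x := by
        simp only [hp]
        ring
      rw [e1]
      refine (norm_sub_le _ _).trans ?_
      have h4 := ha k le_rfl
      have h5 := hb (k + 1) le_rfl
      have h6 := hgeo k k le_rfl
      have h7 := hanti k (k + 1) (Nat.le_succ k)
      have h8 := hhalf1 k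
      have h9 : (0 : ℝ) < (1 / 2) ^ k := by positivity
      have h10 : κ' / 8 * (1 / 2) ^ k * (1 / 2) ^ k ≤ κ' / 8 * (1 / 2) ^ k * 2 := by
        apply mul_le_mul_of_nonneg_left _ (by positivity)
        linarith
      linarith
    · have hs : HasSum (fun l : ℕ => κ' / 8 * (1 / 2) ^ k * (1 / 2 : ℝ) ^ l)
          (κ' / 8 * (1 / 2) ^ k * 2) := hasSum_geometric_two.mul_left _
      have hs2 : Summable (fun l : ℕ => if l = k then 0 else ‖p l x‖) := by
        apply Summable.of_nonneg_of_le _ hbd hs.summable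
        intro l
        split_ifs
        · exact le_rfl
        · exact norm_nonneg _
      refine (hs2.tsum_le_tsum hbd hs.summable).trans ?_
      rw [hs.tsum_eq]
      exact hfin

end Pool.Agent.W349.Ud
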